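import Pool.Agent.Lib_helper52.DimerNewMain2

/-!
# An Ent-maximizing flow of the 3D dimer model with values in the relative interior of a face
# on part of the region, and not in this face on another part

All the definitions occurring in the statement are in `Pool.Agent.Lib_helper52.DimerDefs`.
-/

open MeasureTheory Pool.Agent.Lib_helper52.Dimer

/-- There are a region `R`, boundary data `b`, an Ent-maximizing flow `g` for `(R, b)` and a face
`F` of the octahedron (with signs `σ`) such that `g` takes values in the relative interior of `F` on
a set of positive measure, while `R \ A_F(g)` has positive measure too. Moreover `A_F(g')` is the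
same set, up to null sets, for every flow `g'` of `AF(R, b)`. -/
theorem Pool.Agent.Results.MP_f32666_pr.RelativeInteriorPart.result :
    ∃ (R : Set R3) (b : BoundaryData R) (g : R3 → R3) (σ : Fin 3 → ℤˣ),
      IsRegion R ∧ IsEntMaximizing R b g ∧
      0 < volume {x | x ∈ R ∧ g x ∈ face σ ∧ ∀ i, g x i ≠ 0} ∧
      0 < volume (faceValued R g (face σ)) ∧
      0 < volume (R \ faceValued R g (face σ)) ∧
      ∀ g' ∈ AF R b, ∀ᵐ x ∂(volume.restrict R), (g' x ∈ face σ ↔ g x ∈ face σ) :=
  ⟨cube, bT, gT, fun _ => 1, isRegion_cube, isEntMaximizing_gT, relint_part_pos,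
    relint_part_pos.trans_le (measure_mono fun _ hx => ⟨hx.1, hx.2.1⟩), complement_pos,
    fun _ hg' => same_part hg'⟩
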